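import Pool.Agent.U19.UB.Defs
import Mathlib

/-!
# The translations for the trivial forcing notion; the cardinality of the continuum
-/

set_option autoImplicit false

namespace Pool.Agent.U19.UB

open Cardinal Set Pool.Agent.Helper669.Forcing

/-! ### The trivial forcing notion -/

section Unit

abbrev u : Unit := ()

theorem u_fnot {φ : Set Unit} : u ∈ fnot φ ↔ ¬ u ∈ φ :=
  ⟨fun h => h u le_rfl, fun h _ _ => h⟩

theorem u_fimp {φ ψ : Set Unit} : u ∈ fimp φ ψ ↔ (u ∈ φ → u ∈ ψ) := by
  rw [fimp, u_fnot, mem_fand, u_fnot]; tauto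

theorem u_fex {ι : Type} {φ : ι → Set Unit} : u ∈ fex φ ↔ ∃ i, u ∈ φ i := by
  rw [fex, u_fnot]
  simp only [mem_fall, u_fnot]
  push Not
  rfl

theorem u_meets {N : Set Unit} : u ∈ meets N ↔ u ∈ N :=
  ⟨fun h => by obtain ⟨_, _, s, hs, _⟩ := h u le_rfl; exact hs, fun h => meets_of_mem h⟩

theorem u_fiff {φ ψ : Set Unit} : u ∈ fiff φ ψ ↔ (u ∈ φ ↔ u ∈ ψ) := by
  rw [fiff, mem_fand, u_fimp, u_fimp]; tauto

variable {E : Type}

/-- the predicate given by a name -/
def ev (T : E → Set Unit) : E → Prop := fun x => u ∈ T x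

/-- the name given by a predicate -/
def nm (T : E → Prop) : E → Set Unit := fun x => {_p | T x}

theorem ev_nm (T : E → Prop) : ev (nm T) = T := rfl

theorem nm_ev (T : E → Set Unit) : nm (ev T) = T := by
  funext x; ext p; rfl

theorem ev_inj {T T' : E → Set Unit} (h : ev T = ev T') : T = T' := by
  rw [← nm_ev T, ← nm_ev T', h]

/-- the family of predicates given by a name -/
def ev2 (S : (E → Set Unit) → Set Unit) : (E → Prop) → Prop := fun T => u ∈ S (nm T)

theorem u_MemN {T : E → Set Unit} {S : (E → Set Unit) → Set Unit} :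
    u ∈ MemN T S ↔ ev2 S (ev T) := by
  simp only [MemN, u_fex, mem_fand, u_meets, EqN, mem_fall, u_fiff, ev2, nm_ev]
  constructor
  · rintro ⟨T', h1, h2⟩
    have : T = T' := ev_inj (funext fun x => propext (h2 x))
    rwa [this]
  · intro h
    exact ⟨T, h, fun x => Iff.rfl⟩

theorem u_SigmaClosedN {S : (E → Set Unit) → Set Unit} :
    u ∈ SigmaClosedN S ↔ SigmaClosed (ev2 S) := by
  simp only [SigmaClosedN, mem_fand, mem_fall, u_fimp, u_MemN, SigmaClosed]
  refine and_congr ⟨fun h T hT => ?_, fun h T hT => ?_⟩ ⟨fun h T hT => ?_, fun h T hT => ?_⟩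
  · have h1 := h (nm T) hT
    have h2 : ev (complN (nm T)) = fun x => ¬ T x := by
      funext x
      exact propext (u_fnot.trans (not_congr u_meets))
    rwa [h2] at h1
  · have h1 := h (ev T) hT
    have h2 : ev (complN T) = fun x => ¬ ev T x := by
      funext x
      exact propext (u_fnot.trans (not_congr u_meets))
    rwa [h2]
  · have h1 := h (fun n => nm (T n)) hT
    have h2 : ev (unionN fun n => nm (T n)) = fun x => ∃ n, T n x := by
      funext x
      exact propext (by simp [ev, unionN, nm])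
    rwa [h2] at h1
  · have h1 := h (fun n => ev (T n)) hT
    have h2 : ev (unionN T) = fun x => ∃ n, ev (T n) x := by
      funext x
      exact propext (by simp [ev, unionN])
    rwa [h2]

theorem u_InSigN {B : ℕ → E → Set Unit} {T : E → Set Unit} :
    u ∈ InSigN B T ↔ InSig (fun n => ev (B n)) (ev T) := by
  simp only [InSigN, mem_fall, u_fimp, mem_fand, u_MemN, u_SigmaClosedN, InSig]
  constructor
  · intro h S hS
    have := h (fun T => {_p | S (ev T)})
    exact this hS
  · intro h S hS
    exact h (ev2 S) hS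

/-- For the trivial forcing notion `NoBaseN` is `NoBase`. -/
theorem noBaseN_unit : u ∈ NoBaseN Unit E ↔ NoBase E := by
  simp only [NoBaseN, u_fex, mem_fall, u_fnot, u_InSigN, NoBase]
  constructor
  · rintro ⟨F, hF⟩
    refine ⟨fun e => ev (F e), fun B => ?_⟩
    exact hF fun n => nm (B n)
  · rintro ⟨F, hF⟩
    exact ⟨fun e => nm (F e), fun B => hF fun n => ev (B n)⟩

/-- For the trivial forcing notion `SizeContN` is `SizeCont`. -/
theorem sizeContN_unit : u ∈ SizeContN Unit E ↔ SizeCont E := by
  simp only [SizeContN, mem_fand, u_fex, mem_fall, u_fnot, u_fiff, u_meets, SizeCont]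
  refine and_congr ⟨?_, ?_⟩ ⟨?_, ?_⟩
  · rintro ⟨c, hc⟩
    exact ⟨fun e n => u ∈ c e n, fun e e' h => hc e e' h⟩
  · rintro ⟨c, hc⟩
    exact ⟨fun e n => {_p | c e n}, fun e e' h => hc e e' h⟩
  · rintro ⟨c, hc⟩
    refine ⟨fun e n => u ∈ c e n, fun X => ?_⟩
    exact hc fun n => {_p | X n}
  · rintro ⟨c, hc⟩
    exact ⟨fun e n => {_p | c e n}, fun X => hc fun n => u ∈ X n⟩

end Unit

/-- `SizeCont E` says that `E` has the cardinality of the continuum. -/
theorem sizeCont_iff (E : Type) : SizeCont E ↔ #E = 𝔠 := by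
  constructor
  · rintro ⟨⟨c, hc⟩, ⟨d, hd⟩⟩
    apply le_antisymm
    · have h1 : Function.Injective (fun e : E => {n | c e n}) := by
        intro e e' h
        by_contra hne
        obtain ⟨n, hn⟩ := hc e e' hne
        exact hn (Set.ext_iff.1 h n)
      have h2 := mk_le_of_injective h1
      rwa [mk_set, mk_nat, two_power_aleph0] at h2
    · have h1 : Function.Surjective (fun e : E => {n | d e n}) := by
        intro X
        obtain ⟨e, he⟩ := hd fun n => n ∈ X
        exact ⟨e, by ext n; exact (he n).symm⟩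
      have h2 := mk_le_of_surjective h1
      rwa [mk_set, mk_nat, two_power_aleph0] at h2
  · intro h
    have h1 : #E = #(Set ℕ) := by rw [h, mk_set, mk_nat, two_power_aleph0]
    obtain ⟨f⟩ := Cardinal.eq.1 h1
    refine ⟨⟨fun e n => n ∈ f e, fun e e' hne => ?_⟩, fun e n => n ∈ f e, fun X => ?_⟩
    · by_contra hcon
      push Not at hcon
      exact hne (f.injective (Set.ext hcon))
    · exact ⟨f.symm {n | X n}, fun n => by simp⟩

end Pool.Agent.U19.UB
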