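import Pool.Agent.U19.UB.Comb

/-!
# The base property fails after adding Cohen reals
-/

set_option autoImplicit false

namespace Pool.Agent.U19.UB

open Cardinal Set Pool.Agent.Helper669.Forcing Pool.Agent.W631.CG Pool.Agent.W684.FM

theorem noBaseN {J E : Type} [Infinite J] (hE : 𝔠 < #E) (hpow : #E ^ (ℵ₁ : Cardinal.{0}) = #E)
    (p : Fn J Bool) : p ∈ NoBaseN (Fn J Bool) E := by
  -- an enumeration of all subsets of size `ℵ₁`
  have h1 : #{Z : Set E // #Z ≤ ℵ₁} ≤ #E := by
    refine (mk_bounded_set_le E ℵ₁).trans ?_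
    have h0 : max #E ℵ₀ = #E := max_eq_left (aleph0_le_continuum.trans hE.le)
    rw [h0, hpow]
  have h2 : Nonempty {Z : Set E // #Z ≤ ℵ₁} := ⟨⟨∅, by simp⟩⟩
  obtain ⟨g, hg⟩ : ∃ g : E → {Z : Set E // #Z ≤ ℵ₁}, Function.Surjective g := by
    obtain ⟨f⟩ := h1
    exact ⟨Function.invFun f, Function.invFun_surjective f.injective⟩
  refine mem_fex_of_mem (fun e x => {_p | x ∈ (g e).1}) (down_fall fun _ => down_fex _) ?_
  intro B
  obtain ⟨Z, hZ, hB⟩ := exists_not_inSig hE B
  obtain ⟨e, he⟩ := hg ⟨Z, hZ.le⟩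
  refine mem_fex_of_mem e (down_fnot _) ?_
  intro q _ hq
  refine hB q ?_
  have hq' : q ∈ InSigN B (fun x => {_p | x ∈ (g e).1}) := hq
  rw [he] at hq'
  exact hq'

/-- the codes of conditions -/
abbrev JCode (J : Type) : Type := Finset J × Finset J

open Classical in
/-- the condition with a given code -/
noncomputable def jcnd {J : Type} (s : JCode J) : Fn J Bool := ⟨s.1, fun j => decide (j ∈ s.2)⟩

theorem exists_jcode {J : Type} (p : Fn J Bool) : ∃ s : JCode J, jcnd s ≤ p ∧ p ≤ jcnd s := by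
  classical
  refine ⟨(p.dom, p.dom.filter fun j => p.val j = true), ⟨?_, ?_⟩, ⟨?_, ?_⟩⟩
  · exact Finset.Subset.refl _
  · intro i hi
    simp [jcnd, hi]
  · exact Finset.Subset.refl _
  · intro i hi
    have hi' : i ∈ p.dom := hi
    simp [jcnd, hi']

theorem sizeContN {E : Type} (hE : ℵ₀ ≤ #E) (hpow : #E ^ ℵ₀ = #E)
    (p : Fn (E × ℕ) Bool) : p ∈ SizeContN (Fn (E × ℕ) Bool) E := by
  classical
  constructor
  · refine mem_fex_of_mem (fun e n => {p | (e, n) ∈ p.dom ∧ p.val (e, n) = true})
      (down_fall fun _ => down_fall fun _ => down_fall fun _ => down_fex _) ?_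
    intro e e' hne
    refine mem_fex.2 fun q _ => ?_
    obtain ⟨n, hn⟩ : ∃ n : ℕ, (e, n) ∉ q.dom ∧ (e', n) ∉ q.dom := by
      obtain ⟨n, hn⟩ := Infinite.exists_notMem_finset (q.dom.image Prod.snd)
      refine ⟨n, fun h => hn ?_, fun h => hn ?_⟩
      · exact Finset.mem_image.2 ⟨_, h, rfl⟩
      · exact Finset.mem_image.2 ⟨_, h, rfl⟩
    have hne' : ((e', n) : E × ℕ) ≠ (e, n) := fun h => hne (congrArg Prod.fst h).symm
    let r : Fn (E × ℕ) Bool := ⟨insert (e, n) (insert (e', n) q.dom),
      fun j => if j = (e, n) then true else if j = (e', n) then false else q.val j⟩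
    have hr : r ≤ q := by
      refine ⟨fun i hi => Finset.mem_insert_of_mem (Finset.mem_insert_of_mem hi), fun i hi => ?_⟩
      have h1 : i ≠ (e, n) := fun h => hn.1 (h ▸ hi)
      have h2 : i ≠ (e', n) := fun h => hn.2 (h ▸ hi)
      simp [r, h1, h2]
    refine ⟨r, hr, n, ?_⟩
    intro s hs hfi
    have h1 : s ∈ meets {p : Fn (E × ℕ) Bool | (e, n) ∈ p.dom ∧ p.val (e, n) = true} := by
      refine meets_of_le (s := r) ⟨Finset.mem_insert_self _ _, ?_⟩ hs
      simp [r]
    have h2 := (mem_fiff.1 hfi s le_rfl).1 h1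
    obtain ⟨t, ht, u, hu, htu⟩ := h2 s le_rfl
    have h3 : t.val (e', n) = true := by
      rw [htu.2 _ hu.1]; exact hu.2
    have h4 : t.val (e', n) = false := by
      have h5 : (e', n) ∈ r.dom := Finset.mem_insert_of_mem (Finset.mem_insert_self _ _)
      rw [(ht.trans hs).2 _ h5]
      simp [r, hne']
    rw [h3] at h4
    exact absurd h4 (by simp)
  · -- an enumeration of all sequences of countable sets of codes
    have hI : Infinite E := infinite_iff.2 hE
    have h0 : #(E × ℕ) = #E := by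
      rw [mk_prod, lift_id, lift_id, mk_nat]
      exact mul_aleph0_eq hE
    have h00 : #(Finset (E × ℕ)) = #E := by
      rw [mk_finset_of_infinite, h0]
    have h1 : #(ℕ → ℕ → Option (JCode (E × ℕ))) ≤ #E := by
      have h2 : #(Option (JCode (E × ℕ))) ≤ #E := by
        rw [mk_option, mk_prod, lift_id, h00, mul_eq_self hE]
        exact add_le_of_le hE le_rfl (one_lt_aleph0.le.trans hE)
      have h3 : #(ℕ → Option (JCode (E × ℕ))) ≤ #E := by
        rw [← power_def, mk_nat]
        exact (power_le_power_right h2).trans hpow.le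
      rw [← power_def, mk_nat]
      exact (power_le_power_right h3).trans hpow.le
    obtain ⟨g, hg⟩ : ∃ g : E → (ℕ → ℕ → Option (JCode (E × ℕ))), Function.Surjective g := by
      obtain ⟨f⟩ := h1
      exact ⟨Function.invFun f, Function.invFun_surjective f.injective⟩
    refine mem_fex_of_mem (fun e n => {p | ∃ m s, g e n m = some s ∧ p = jcnd s})
      (down_fall fun _ => down_fex _) ?_
    intro X
    have hX : ∀ n, ∃ h : ℕ → Option (JCode (E × ℕ)),
        meets {p | ∃ m s, h m = some s ∧ p = jcnd s} = meets (X n) := by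
      intro n
      obtain ⟨A, hA, hAX⟩ := exists_countable_name (Fn.pccc (J := E × ℕ) (K := Bool)) (X n)
      choose c hc1 hc2 using fun p : Fn (E × ℕ) Bool => exists_jcode p
      rcases A.eq_empty_or_nonempty with rfl | hne
      · refine ⟨fun _ => none, ?_⟩
        rw [← hAX]
        congr 1
        ext p; simp
      · obtain ⟨f, hf⟩ := hA.exists_eq_range hne
        refine ⟨fun m => some (c (f m)), ?_⟩
        rw [← hAX]
        ext q
        constructor
        · intro hq r hr
          obtain ⟨s, hs, t, ⟨m, u, hu, rfl⟩, hst⟩ := hq r hr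
          obtain rfl := Option.some.inj hu
          exact ⟨s, hs, f m, hf ▸ mem_range_self m, hst.trans (hc1 _)⟩
        · intro hq r hr
          obtain ⟨s, hs, t, ht, hst⟩ := hq r hr
          rw [hf] at ht
          obtain ⟨m, rfl⟩ := ht
          exact ⟨s, hs, _, ⟨m, _, rfl, rfl⟩, hst.trans (hc2 _)⟩
    choose h hh using hX
    obtain ⟨e, he⟩ := hg h
    refine mem_fex_of_mem e (down_fall fun _ => down_fiff _ _) ?_
    intro n
    refine mem_fiff.2 fun q _ => ?_
    show q ∈ meets (X n) ↔ q ∈ meets {p | ∃ m s, g e n m = some s ∧ p = jcnd s}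
    rw [he, hh n]

/-- There is a forcing notion which forces that a set `E` has the cardinality of the continuum and
does not have the base property. -/
theorem exists_forcing_noBase : ∃ (P : Type) (_ : Preorder P) (E : Type), Nonempty P ∧ ∀ p : P,
    p ∈ CardinalsPreserved.{0, 0} P ∧ p ∈ OmegaOnePreserved P ∧
    p ∈ SizeContN P E ∧ p ∈ NoBaseN P E := by
  let E : Type := Set (Set ℕ)
  have h1 : #E = (2 : Cardinal.{0}) ^ 𝔠 := by
    rw [mk_set, mk_set, mk_nat, two_power_aleph0]
  have h2 : 𝔠 < #E := by rw [h1]; exact cantor _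
  have h3 : ∀ c : Cardinal.{0}, c ≤ 𝔠 → c ≠ 0 → #E ^ c = #E := by
    intro c hc hc0
    rw [h1, ← power_mul]
    congr 1
    exact mul_eq_left aleph0_le_continuum hc hc0
  have hI : Infinite (E × ℕ) := inferInstance
  refine ⟨Fn (E × ℕ) Bool, inferInstance, E, ⟨⟨∅, fun _ => true⟩⟩, fun p => ⟨?_, ?_, ?_, ?_⟩⟩
  · exact Fn.pccc.cardinalsPreserved p
  · exact Fn.pccc.omegaOnePreserved p
  · exact sizeContN (aleph0_le_continuum.trans h2.le) (h3 _ aleph0_le_continuum
      aleph0_ne_zero) p
  · exact noBaseN h2 (h3 _ aleph_one_le_continuum (aleph_pos 1).ne') p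

end Pool.Agent.U19.UB
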