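import Pool.Agent.U19.UB.Core

/-!
# Similar names, and the contradiction
-/

set_option autoImplicit false

namespace Pool.Agent.U19.UB

open Cardinal Set Pool.Agent.Helper669.Forcing Pool.Agent.W631.CG Pool.Agent.W684.FM

section Swap

variable {J : Type}

open Classical in
/-- The map which exchanges `a n` and `b n` for all `n`. -/
noncomputable def swp (a b : ℕ → J) (j : J) : J :=
  if h : ∃ n, a n = j then b h.choose else if h : ∃ n, b n = j then a h.choose else j

variable {a b : ℕ → J} (ha : Function.Injective a) (hb : Function.Injective b)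

include ha in
theorem swp_a (n : ℕ) : swp a b (a n) = b n := by
  have h : ∃ m, a m = a n := ⟨n, rfl⟩
  rw [swp, dif_pos h, ha h.choose_spec]

include hb in
theorem swp_b (hab : ∀ n m, a n = b m → n = m) (n : ℕ) : swp a b (b n) = a n := by
  by_cases h : ∃ m, a m = b n
  · rw [swp, dif_pos h]
    have h1 := h.choose_spec
    have h2 := hab _ _ h1
    rw [h2] at h1
    rw [h2]
    exact h1.symm
  · have h' : ∃ m, b m = b n := ⟨n, rfl⟩
    rw [swp, dif_neg h, dif_pos h', hb h'.choose_spec]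

theorem swp_other {j : J} (h1 : ∀ n, a n ≠ j) (h2 : ∀ n, b n ≠ j) : swp a b j = j := by
  rw [swp, dif_neg (by push Not; exact h1), dif_neg (by push Not; exact h2)]

include ha hb in
theorem swp_invol (hab : ∀ n m, a n = b m → n = m) : Function.Involutive (swp a b) := by
  intro j
  by_cases h1 : ∃ n, a n = j
  · obtain ⟨n, rfl⟩ := h1
    rw [swp_a ha, swp_b hb hab]
  · by_cases h2 : ∃ n, b n = j
    · obtain ⟨n, rfl⟩ := h2
      rw [swp_b hb hab, swp_a ha]
    · push Not at h1 h2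
      rw [swp_other h1 h2, swp_other h1 h2]

end Swap

/-- codes of conditions with coordinates in the range of a sequence -/
abbrev Code : Type := Finset ℕ × Finset ℕ

open Classical in
/-- the condition with a given code -/
noncomputable def cnd {J : Type} (a : ℕ → J) (s : Code) : Fn J Bool :=
  ⟨s.1.image a, fun j => decide (∃ m ∈ s.2, a m = j)⟩

section Types

variable {J E : Type} {B : ℕ → E → Set (Fn J Bool)}

theorem exists_code {a : ℕ → J} (ha : Function.Injective a) (p : Fn J Bool) :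
    ∃ s : Code, (∀ m, m ∈ s.1 ↔ a m ∈ p.dom) ∧ (∀ m ∈ s.1, m ∈ s.2 ↔ p.val (a m) = true) := by
  classical
  refine ⟨(p.dom.preimage a ha.injOn, (p.dom.preimage a ha.injOn).filter
    fun m => p.val (a m) = true), fun m => by simp, fun m hm => ?_⟩
  simp only [Finset.mem_filter]
  exact ⟨fun h => h.2, fun h => ⟨hm, h⟩⟩

theorem cnd_le_res {a : ℕ → J} (ha : Function.Injective a) {p : Fn J Bool} {s : Code}
    (h1 : ∀ m, m ∈ s.1 ↔ a m ∈ p.dom) (h2 : ∀ m ∈ s.1, m ∈ s.2 ↔ p.val (a m) = true) :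
    cnd a s ≤ p.res (range a) := by
  classical
  refine ⟨fun j hj => ?_, fun j hj => ?_⟩
  · rw [Fn.mem_res_dom] at hj
    obtain ⟨hj, m, rfl⟩ := hj
    exact Finset.mem_image_of_mem _ ((h1 m).2 hj)
  · rw [Fn.mem_res_dom] at hj
    obtain ⟨hj, m, rfl⟩ := hj
    rw [Fn.res_val]
    have h3 := h2 m ((h1 m).2 hj)
    simp only [cnd]
    have h4 : (∃ k ∈ s.2, a k = a m) ↔ m ∈ s.2 :=
      ⟨fun ⟨k, hk, hkm⟩ => ha hkm ▸ hk, fun h => ⟨m, h, rfl⟩⟩
    rw [Bool.eq_iff_iff, decide_eq_true_iff, h4, h3]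

theorem act_le_cnd {a b : ℕ → J} (hb : Function.Injective b) {π : Equiv.Perm J}
    (hπ : ∀ n, π (a n) = b n) {p : Fn J Bool} {s : Code}
    (h1 : ∀ m, m ∈ s.1 ↔ a m ∈ p.dom) (h2 : ∀ m ∈ s.1, m ∈ s.2 ↔ p.val (a m) = true) :
    act π p ≤ cnd b s := by
  classical
  refine ⟨fun j hj => ?_, fun j hj => ?_⟩
  · obtain ⟨m, hm, rfl⟩ := Finset.mem_image.1 hj
    rw [mem_act_dom, ← hπ m, Equiv.symm_apply_apply]
    exact (h1 m).1 hm
  · obtain ⟨m, hm, rfl⟩ := Finset.mem_image.1 hj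
    simp only [cnd, act]
    rw [← hπ m, Equiv.symm_apply_apply, hπ m]
    have h4 : (∃ k ∈ s.2, b k = b m) ↔ m ∈ s.2 :=
      ⟨fun ⟨k, hk, hkm⟩ => hb hkm ▸ hk, fun h => ⟨m, h, rfl⟩⟩
    rw [Bool.eq_iff_iff, decide_eq_true_iff, h4, h2 m hm]

theorem transfer_aux {a b : ℕ → J} (ha : Function.Injective a) (hb : Function.Injective b)
    {π : Equiv.Perm J} (hπ : ∀ n, π (a n) = b n) {N N' : Set (Fn J Bool)}
    (hsup : ∀ p ∈ meets N, p.res (range a) ∈ meets N)
    (ht : ∀ s, cnd a s ∈ meets N → cnd b s ∈ meets N') {p : Fn J Bool} (hp : p ∈ meets N) :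
    act π p ∈ meets N' := by
  obtain ⟨s, h1, h2⟩ := exists_code ha p
  have h3 := down_meets _ _ (hsup p hp) _ (cnd_le_res ha h1 h2)
  exact down_meets _ _ (ht s h3) _ (act_le_cnd hb hπ h1 h2)

theorem transfer {a b : ℕ → J} (ha : Function.Injective a) (hb : Function.Injective b)
    {π : Equiv.Perm J} (hπ : ∀ n, π (a n) = b n) {N N' : Set (Fn J Bool)}
    (hsup : ∀ p ∈ meets N, p.res (range a) ∈ meets N)
    (hsup' : ∀ p ∈ meets N', p.res (range b) ∈ meets N')
    (ht : ∀ s, cnd a s ∈ meets N ↔ cnd b s ∈ meets N') (p : Fn J Bool) :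
    p ∈ meets N ↔ act π p ∈ meets N' := by
  refine ⟨transfer_aux ha hb hπ hsup fun s => (ht s).1, fun h => ?_⟩
  have h1 := transfer_aux hb ha (π := π.symm) (fun n => by rw [← hπ n, Equiv.symm_apply_apply])
    hsup' (fun s => (ht s).2) h
  rwa [act_symm_act] at h1

end Types

/-- every countable subset of an infinite set is contained in the range of an injective sequence -/
theorem exists_seq {J : Type} [Infinite J] {A : Set J} (hA : A.Countable) :
    ∃ a : ℕ → J, Function.Injective a ∧ A ⊆ range a := by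
  obtain ⟨f⟩ : Nonempty (ℕ ↪ J) := ⟨Infinite.natEmbedding J⟩
  have hC : (A ∪ range f).Countable := hA.union (countable_range f)
  have hI : (A ∪ range f).Infinite :=
    (Set.infinite_range_of_injective f.injective).mono subset_union_right
  have : Countable (A ∪ range f : Set J) := hC.to_subtype
  have : Infinite (A ∪ range f : Set J) := hI.to_subtype
  obtain ⟨e⟩ : Nonempty (ℕ ≃ (A ∪ range f : Set J)) := by
    have := nonempty_denumerable (A ∪ range f : Set J)
    obtain ⟨d⟩ := this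
    exact ⟨(Denumerable.eqv _).symm⟩
  refine ⟨fun n => (e n).1, Subtype.val_injective.comp e.injective, fun j hj => ?_⟩
  exact ⟨e.symm ⟨j, Or.inl hj⟩, by simp⟩

section Main

variable {J E : Type} [Infinite J]

theorem mk_types (R : Set J) (hR : R.Countable) :
    #((ℕ → Set Code) × (ℕ → Option R)) ≤ 𝔠 := by
  have : Countable R := hR.to_subtype
  have h1 : #(ℕ → Set Code) ≤ 𝔠 := by
    have h : #(Set Code) = 𝔠 := by
      rw [mk_set, mk_eq_aleph0, two_power_aleph0]
    rw [← power_def, h, mk_nat, continuum_power_aleph0]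
  have h2 : #(ℕ → Option R) ≤ 𝔠 := by
    rw [← power_def, mk_nat]
    calc #(Option R) ^ ℵ₀ ≤ ℵ₀ ^ ℵ₀ := power_le_power_right mk_le_aleph0
      _ = 𝔠 := aleph0_power_aleph0
  rw [mk_prod, lift_id, lift_id]
  exact (mul_le_mul' h1 h2).trans (mul_eq_self aleph0_le_continuum).le

theorem exists_system (hE : 𝔠 < #E) (B : ℕ → E → Set (Fn J Bool)) :
    ∃ (T : Set E) (a : E → ℕ → J) (R : Set J), (¬ #T ≤ 𝔠) ∧ (∀ x, Function.Injective (a x)) ∧
      (∀ x ∈ T, ∀ y ∈ T, x ≠ y → range (a x) ∩ range (a y) = R) ∧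
      (∀ x ∈ T, ∀ y ∈ T, ∀ n, a x n ∈ R → a x n = a y n) ∧
      (∀ x n, ∀ p ∈ meets (B n x), p.res (range (a x)) ∈ meets (B n x)) ∧
      (∀ x ∈ T, ∀ y ∈ T, ∀ n s, cnd (a x) s ∈ meets (B n x) ↔ cnd (a y) s ∈ meets (B n y)) := by
  classical
  choose A hA1 hA2 using fun x n => Fn.exists_support (B n x)
  have hseq : ∀ x, ∃ a : ℕ → J, Function.Injective a ∧ (⋃ n, A x n) ⊆ range a :=
    fun x => exists_seq (countable_iUnion fun n => hA1 x n)
  choose a ha1 ha2 using hseq
  have hE' : ¬ #(univ : Set E) ≤ 𝔠 := by simpa using hE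
  obtain ⟨T1, R, -, hT1, hR⟩ := Pool.Agent.Helper292.SP.delta_sys (σ := ℵ₁) (χ := 𝔠)
    aleph0_le_continuum aleph_one_le_continuum (by
      intro τ hτ
      have h1 : τ ≤ ℵ₀ := by
        have : τ < Order.succ ℵ₀ := by rwa [succ_aleph0]
        exact Order.lt_succ_iff.1 this
      calc 𝔠 ^ τ ≤ 𝔠 ^ ℵ₀ := power_le_power_left continuum_ne_zero h1
        _ = 𝔠 := continuum_power_aleph0) univ hE' (fun x => range (a x))
    (fun x => by
      have h1 : #(range (a x)) ≤ ℵ₀ := le_aleph0_iff_set_countable.2 (countable_range _)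
      exact h1.trans_lt aleph0_lt_aleph_one)
  have two : ∃ e ∈ T1, ∃ e' ∈ T1, e ≠ e' := by
    have h1 : 1 < #T1 := (one_lt_aleph0.trans_le aleph0_le_continuum).trans (not_le.mp hT1)
    obtain ⟨⟨e, he⟩, ⟨e', he'⟩, hne⟩ := one_lt_iff_nontrivial.mp h1
    exact ⟨e, he, e', he', fun h => hne (Subtype.ext h)⟩
  have hRc : R.Countable := by
    obtain ⟨e, he, e', he', hne⟩ := two
    rw [← hR e he e' he' hne]
    exact (countable_range _).mono inter_subset_left
  obtain ⟨T2, z, hT2, hT2c, hz⟩ := Pool.Agent.Helper292.SP.pigeon (χ := 𝔠) aleph0_le_continuum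
    T1 hT1 (fun x => ((fun n => {s : Code | cnd (a x) s ∈ meets (B n x)},
      fun n => if h : a x n ∈ R then some (⟨a x n, h⟩ : R) else none) :
        (ℕ → Set Code) × (ℕ → Option R))) (mk_types R hRc)
  refine ⟨T2, a, R, hT2c, ha1, fun x hx y hy hne => hR x (hT2 hx) y (hT2 hy) hne, ?_, ?_, ?_⟩
  · intro x hx y hy n hn
    have h1 := congrFun (congrArg Prod.snd ((hz x hx).trans (hz y hy).symm)) n
    simp only [dif_pos hn] at h1
    by_cases h2 : a y n ∈ R
    · rw [dif_pos h2] at h1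
      exact congrArg Subtype.val (Option.some.inj h1)
    · rw [dif_neg h2] at h1
      exact absurd h1 (by simp)
  · intro x n p hp
    refine down_meets _ _ (hA2 x n p hp) _ ⟨fun i hi => ?_, fun i hi => rfl⟩
    rw [Fn.mem_res_dom] at hi ⊢
    exact ⟨hi.1, ha2 x (mem_iUnion.2 ⟨n, hi.2⟩)⟩
  · intro x hx y hy n s
    have h1 := congrFun (congrArg Prod.fst ((hz x hx).trans (hz y hy).symm)) n
    exact Set.ext_iff.1 h1 s

/-- There is a set `Z` of size `ℵ₁` in the ground model which is forced not to be in the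
`σ`-algebra generated by the sets named by `B n`. -/
theorem exists_not_inSig (hE : 𝔠 < #E) (B : ℕ → E → Set (Fn J Bool)) :
    ∃ Z : Set E, #Z = ℵ₁ ∧ ∀ p : Fn J Bool, p ∉ InSigN B (fun x => {_p | x ∈ Z}) := by
  obtain ⟨T, a, R, hT, ha, hR, hag, hsup, htype⟩ := exists_system hE B
  have hT1 : ℵ₁ ≤ #T := aleph_one_le_continuum.trans (not_le.1 hT).le
  obtain ⟨Z, hZT, hZ⟩ := le_mk_iff_exists_subset.1 hT1
  refine ⟨Z, hZ, fun p hp => ?_⟩
  obtain ⟨q, -, D, hD, hq⟩ := exists_inv hp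
  -- few points are bad
  have hbad : {x ∈ T | ∃ d ∈ D, d ∈ range (a x) ∧ d ∉ R}.Countable := by
    have : Countable D := hD.to_subtype
    have h1 : ∀ x : {x ∈ T | ∃ d ∈ D, d ∈ range (a x) ∧ d ∉ R}, ∃ d : D,
        d.1 ∈ range (a x.1) ∧ d.1 ∉ R := fun x => by
      obtain ⟨d, hd, h⟩ := x.2.2
      exact ⟨⟨d, hd⟩, h⟩
    choose f hf using h1
    have hinj : Function.Injective f := by
      intro x y hxy
      by_contra hne
      have hne' : x.1 ≠ y.1 := fun h => hne (Subtype.ext h)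
      have h2 := hf x
      have h3 := hf y
      rw [← hxy] at h3
      apply h2.2
      rw [← hR x.1 x.2.1 y.1 y.2.1 hne']
      exact ⟨h2.1, h3.1⟩
    exact (hinj.countable : Countable _)
  have hZc : ¬ Z.Countable := by
    rw [← le_aleph0_iff_set_countable, hZ]
    exact not_le.2 aleph0_lt_aleph_one
  have hTZc : ¬ (T \ Z).Countable := by
    intro h
    apply hT
    have h1 : T ⊆ (T \ Z) ∪ Z := by
      intro x hx
      by_cases h : x ∈ Z
      · exact Or.inr h
      · exact Or.inl ⟨hx, h⟩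
    refine (mk_le_mk_of_subset h1).trans ((mk_union_le _ _).trans ?_)
    refine add_le_of_le aleph0_le_continuum ?_ ?_
    · exact (le_aleph0_iff_set_countable.2 h).trans aleph0_le_continuum
    · rw [hZ]; exact aleph_one_le_continuum
  obtain ⟨x, hxZ, hx⟩ : ∃ x ∈ Z, x ∉ {x ∈ T | ∃ d ∈ D, d ∈ range (a x) ∧ d ∉ R} := by
    by_contra hcon
    push Not at hcon
    exact hZc (hbad.mono hcon)
  obtain ⟨y, hyTZ, hy⟩ : ∃ y ∈ T \ Z, y ∉ {x ∈ T | ∃ d ∈ D, d ∈ range (a x) ∧ d ∉ R} := by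
    by_contra hcon
    push Not at hcon
    exact hTZc (hbad.mono hcon)
  have hxT : x ∈ T := hZT hxZ
  have hyT : y ∈ T := hyTZ.1
  have hne : x ≠ y := fun h => hyTZ.2 (h ▸ hxZ)
  have hx' : ∀ d ∈ D, d ∈ range (a x) → d ∈ R := by
    intro d hd hdx
    by_contra h
    exact hx ⟨hxT, d, hd, hdx, h⟩
  have hy' : ∀ d ∈ D, d ∈ range (a y) → d ∈ R := by
    intro d hd hdy
    by_contra h
    exact hy ⟨hyT, d, hd, hdy, h⟩
  have hab : ∀ n m, a x n = a y m → n = m := by
    intro n m h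
    have h1 : a x n ∈ R := by
      rw [← hR x hxT y hyT hne]
      exact ⟨⟨n, rfl⟩, ⟨m, h.symm⟩⟩
    have h2 := hag x hxT y hyT n h1
    exact ha y (h2.symm.trans h)
  let π : Equiv.Perm J := (swp_invol (ha x) (ha y) hab).toPerm
  have hπa : ∀ n, π (a x n) = a y n := fun n => swp_a (ha x) n
  have hπD : ∀ j ∈ D, π j = j := by
    intro j hj
    by_cases h1 : j ∈ range (a x)
    · obtain ⟨n, rfl⟩ := h1
      rw [hπa]
      exact (hag x hxT y hyT n (hx' _ hj ⟨n, rfl⟩)).symm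
    · by_cases h2 : j ∈ range (a y)
      · obtain ⟨n, rfl⟩ := h2
        have h3 := hag y hyT x hxT n (hy' _ hj ⟨n, rfl⟩)
        exact absurd ⟨n, h3.symm⟩ h1
      · exact swp_other (fun n h => h1 ⟨n, h⟩) (fun n h => h2 ⟨n, h⟩)
  have h1 := hq.2 π hπD x y (fun n p => transfer (ha x) (ha y) hπa (hsup x n) (hsup y n)
    (htype x hxT y hyT n) p) q le_rfl (meets_of_mem (show x ∈ Z from hxZ))
  obtain ⟨r, _, s, hs, _⟩ := h1 _ le_rfl
  exact hyTZ.2 hs

end Main

end Pool.Agent.U19.UB
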