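import Pool.Agent.U19.UB.Defs
import Pool.Agent.W631.CG.Fn

/-!
# The family of the names with countable support
-/

set_option autoImplicit false

namespace Pool.Agent.U19.UB

open Cardinal Set Pool.Agent.Helper669.Forcing Pool.Agent.W631.CG Pool.Agent.W684.FM

section General

variable {P : Type} [Preorder P] {E : Type}

theorem of_fimp {φ : Set P} {N : Set P} {p : P} (h : p ∈ fimp φ (meets N)) (hφ : Down φ)
    {q : P} (hq : q ≤ p) (hqφ : q ∈ φ) : q ∈ meets N := by
  apply meets_of_dense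
  intro r hr
  exact mem_fimp.1 h r (hr.trans hq) (hφ _ hqφ r hr)

theorem mem_fiff {A A' : Set P} {p : P} :
    p ∈ fiff (meets A) (meets A') ↔ ∀ q ≤ p, (q ∈ meets A ↔ q ∈ meets A') := by
  constructor
  · intro h q hq
    exact ⟨fun h' => of_fimp h.1 (down_meets _) hq h', fun h' => of_fimp h.2 (down_meets _) hq h'⟩
  · intro h
    exact ⟨mem_fimp.2 fun q hq h' => ⟨q, le_rfl, (h q hq).1 h'⟩,
      mem_fimp.2 fun q hq h' => ⟨q, le_rfl, (h q hq).2 h'⟩⟩

theorem mem_EqN {T T' : E → Set P} {p : P} :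
    p ∈ EqN T T' ↔ ∀ x, ∀ q ≤ p, (q ∈ meets (T x) ↔ q ∈ meets (T' x)) :=
  forall_congr' fun _ => mem_fiff

theorem down_fiff (φ ψ : Set P) : Down (fiff φ ψ) := down_fand (down_fimp _ _) (down_fimp _ _)

theorem down_EqN (T T' : E → Set P) : Down (EqN T T') := down_fall fun _ => down_fiff _ _

theorem down_MemN (T : E → Set P) (S : (E → Set P) → Set P) : Down (MemN T S) := down_fex _

theorem down_SigmaClosedN (S : (E → Set P) → Set P) : Down (SigmaClosedN S) :=
  down_fand (down_fall fun _ => down_fimp _ _) (down_fall fun _ => down_fimp _ _)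

theorem meets_fnot {φ : Set P} (hφ : Down φ) {p : P} (h : p ∈ meets (fnot φ)) : p ∈ fnot φ := by
  intro q hq hqφ
  obtain ⟨r, hr, s, hs, hle⟩ := h q hq
  exact hs r hle (hφ q hqφ r hr)

end General

open Classical in
/-- A permutation of the coordinates acts on the conditions. -/
noncomputable def act {J : Type} (π : Equiv.Perm J) (p : Fn J Bool) : Fn J Bool :=
  ⟨p.dom.image π, fun j => p.val (π.symm j)⟩

section Act

variable {J : Type}

theorem mem_act_dom {π : Equiv.Perm J} {p : Fn J Bool} {j : J} :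
    j ∈ (act π p).dom ↔ π.symm j ∈ p.dom := by
  classical
  simp only [act, Finset.mem_image]
  constructor
  · rintro ⟨i, hi, rfl⟩
    simpa using hi
  · intro h
    exact ⟨_, h, by simp⟩

theorem act_le {π : Equiv.Perm J} {p q : Fn J Bool} (h : q ≤ p) : act π q ≤ act π p := by
  refine ⟨fun j hj => ?_, fun j hj => ?_⟩
  · rw [mem_act_dom] at hj ⊢
    exact h.1 hj
  · rw [mem_act_dom] at hj
    exact h.2 _ hj

theorem act_symm_act (π : Equiv.Perm J) (p : Fn J Bool) : act π.symm (act π p) = p := by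
  classical
  cases p with
  | mk d v =>
    simp only [act, Finset.image_image]
    congr 1
    · ext j; simp
    · funext j; simp

theorem act_act_symm (π : Equiv.Perm J) (p : Fn J Bool) : act π (act π.symm p) = p := by
  have := act_symm_act π.symm p
  simpa using this

theorem act_le_self {π : Equiv.Perm J} {p : Fn J Bool} (h : ∀ j ∈ p.dom, π j = j) :
    act π p ≤ p := by
  refine ⟨fun j hj => ?_, fun j hj => ?_⟩
  · rw [mem_act_dom]
    have : π.symm j = j := by rw [Equiv.symm_apply_eq]; exact (h j hj).symm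
    rwa [this]
  · have : π.symm j = j := by rw [Equiv.symm_apply_eq]; exact (h j hj).symm
    simp only [act]
    rw [this]

end Act

section Inv

variable {J E : Type} (B : ℕ → E → Set (Fn J Bool))

/-- Below `q` the set named by `T` only depends on the coordinates in `D` and on the sets named
by `B n`. -/
def Inv (q : Fn J Bool) (D : Set J) (T : E → Set (Fn J Bool)) : Prop :=
  (∀ j ∈ q.dom, j ∈ D) ∧ ∀ π : Equiv.Perm J, (∀ j ∈ D, π j = j) → ∀ x y,
    (∀ n p, p ∈ meets (B n x) ↔ act π p ∈ meets (B n y)) →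
    ∀ p ≤ q, p ∈ meets (T x) → act π p ∈ meets (T y)

/-- The name of the family of all subsets of `E` which only depend on countably many coordinates
and on the sets named by `B n`. -/
def S0 : (E → Set (Fn J Bool)) → Set (Fn J Bool) := fun T =>
  {q | ∃ D : Set J, D.Countable ∧ Inv B q D T}

variable {B}

theorem Inv.mono {q : Fn J Bool} {D D' : Set J} {T : E → Set (Fn J Bool)} (h : Inv B q D T)
    {q' : Fn J Bool} (hq : q' ≤ q) (hD : D ⊆ D') (hq' : ∀ j ∈ q'.dom, j ∈ D') :
    Inv B q' D' T :=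
  ⟨hq', fun π hπ x y hxy p hp hpT => h.2 π (fun j hj => hπ j (hD hj)) x y hxy p (hp.trans hq) hpT⟩

theorem down_S0 (T : E → Set (Fn J Bool)) : Down (S0 B T) := by
  rintro q ⟨D, hD, h⟩ q' hq'
  exact ⟨D ∪ q'.dom, hD.union (Finset.countable_toSet _), h.mono hq' subset_union_left
    fun j hj => Or.inr hj⟩

theorem Inv.congr {q : Fn J Bool} {D : Set J} {T T' : E → Set (Fn J Bool)} (h : Inv B q D T')
    (he : q ∈ EqN T T') : Inv B q D T := by
  refine ⟨h.1, fun π hπ x y hxy p hp hpT => ?_⟩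
  have h1 := (mem_EqN.1 he x p hp).1 hpT
  have h2 := h.2 π hπ x y hxy p hp h1
  have h3 : act π p ≤ q := (act_le hp).trans (act_le_self fun j hj => hπ j (h.1 j hj))
  exact (mem_EqN.1 he y _ h3).2 h2

theorem mem_MemN_S0 {T : E → Set (Fn J Bool)} {p : Fn J Bool} :
    p ∈ MemN T (S0 B) ↔ ∀ q ≤ p, ∃ r ≤ q, r ∈ S0 B T := by
  constructor
  · intro h q hq
    obtain ⟨r, hr, T', h1, h2⟩ := mem_fex.1 h q hq
    obtain ⟨s, hs, D, hD, h3⟩ := exists_of_meets (down_S0 T') h1
    exact ⟨s, hs.trans hr, D, hD, h3.congr (down_EqN _ _ _ h2 s hs)⟩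
  · intro h
    refine mem_fex.2 fun q hq => ?_
    obtain ⟨r, hr, h1⟩ := h q hq
    exact ⟨r, hr, T, meets_of_mem h1, mem_EqN.2 fun x q _ => Iff.rfl⟩

theorem base_S0 (n : ℕ) (p : Fn J Bool) : p ∈ MemN (B n) (S0 B) := by
  rw [mem_MemN_S0]
  intro q _
  refine ⟨q, le_rfl, q.dom, Finset.countable_toSet _, fun j hj => hj, ?_⟩
  intro π _ x y hxy p _ hp
  exact (hxy n p).1 hp

theorem Inv.compl {q : Fn J Bool} {D : Set J} {T : E → Set (Fn J Bool)} (h : Inv B q D T) :
    Inv B q D (complN T) := by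
  refine ⟨h.1, fun π hπ x y hxy p hp hpT => ?_⟩
  have h1 : p ∈ fnot (meets (T x)) := meets_fnot (down_meets _) hpT
  apply meets_of_mem
  intro s hs hsT
  have hπ' : ∀ j ∈ D, π.symm j = j := fun j hj => by
    rw [Equiv.symm_apply_eq]; exact (hπ j hj).symm
  have h2 : act π.symm s ≤ p := by
    have := act_le (π := π.symm) hs
    rwa [act_symm_act] at this
  have h3 : s ≤ q := hs.trans ((act_le hp).trans (act_le_self fun j hj => hπ j (h.1 j hj)))
  refine h1 _ h2 (h.2 π.symm hπ' y x (fun n p => ?_) s h3 hsT)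
  have := hxy n (act π.symm p)
  rw [act_act_symm] at this
  exact this.symm

theorem sigma_S0 (p : Fn J Bool) : p ∈ SigmaClosedN (S0 B) := by
  constructor
  · intro T
    refine mem_fimp.2 fun q _ h => ⟨q, le_rfl, ?_⟩
    rw [mem_MemN_S0] at h ⊢
    intro r hr
    obtain ⟨s, hs, D, hD, h1⟩ := h r hr
    exact ⟨s, hs, D, hD, h1.compl⟩
  · intro T
    refine mem_fimp.2 fun q _ h => ⟨q, le_rfl, ?_⟩
    have hden : ∀ n, ∀ r ≤ q, ∃ s ≤ r, s ∈ S0 B (T n) := fun n => mem_MemN_S0.1 (h n)
    rw [mem_MemN_S0]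
    intro q' hq'
    refine ⟨q', le_rfl, ?_⟩
    choose A hA1 hA2 hA3 using fun n =>
      exists_predense (Fn.pccc (J := J) (K := Bool)) (S0 B (T n)) (down_S0 _)
    have hD : ∀ n (a : A n), ∃ D : Set J, D.Countable ∧ Inv B a.1 D (T n) := fun n a => hA2 n a.2
    choose D hD1 hD2 using hD
    refine ⟨q'.dom ∪ ⋃ n, ⋃ a : A n, D n a, ?_, fun j hj => Or.inl hj, ?_⟩
    · refine (Finset.countable_toSet _).union (countable_iUnion fun n => ?_)
      have : Countable (A n) := (hA1 n).to_subtype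
      exact countable_iUnion fun a => hD1 n a
    · intro π hπ x y hxy p hp hpT
      apply meets_of_dense
      intro s hs
      have h2 : act π.symm s ≤ p := by
        have := act_le (π := π.symm) hs
        rwa [act_symm_act] at this
      obtain ⟨r1, hr1, u, hu, hr1u⟩ := hpT _ h2
      obtain ⟨n, hn⟩ := mem_iUnion.1 hu
      have h3 : r1 ∈ meets (T n x) := meets_of_le hn hr1u
      obtain ⟨r2, hr2, h4⟩ := hden n r1 ((hr1.trans (h2.trans hp)).trans hq')
      obtain ⟨a, ha, r3, hr3, hr3a⟩ := hA3 n r2 h4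
      have h5 := (hD2 n ⟨a, ha⟩).2 π
        (fun j hj => hπ j (Or.inr (mem_iUnion₂.2 ⟨n, ⟨a, ha⟩, hj⟩))) x y hxy r3 hr3a
        (down_meets _ _ h3 _ (hr3.trans hr2))
      refine ⟨act π r3, ?_, ?_⟩
      · have := act_le (π := π) (hr3.trans (hr2.trans hr1))
        rwa [act_act_symm] at this
      · intro t ht
        obtain ⟨t', ht', v, hv, hv'⟩ := h5 t ht
        exact ⟨t', ht', v, mem_iUnion.2 ⟨n, hv⟩, hv'⟩

/-- A set which is forced to be in the `σ`-algebra generated by the sets `B n` depends on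
countably many coordinates and on these sets, below some condition. -/
theorem exists_inv {T : E → Set (Fn J Bool)} {p : Fn J Bool} (h : p ∈ InSigN B T) :
    ∃ q ≤ p, ∃ D : Set J, D.Countable ∧ Inv B q D T := by
  have h1 := h (S0 B)
  obtain ⟨r, hr, h2⟩ := mem_fimp.1 h1 p le_rfl ⟨fun n => base_S0 n p, sigma_S0 p⟩
  obtain ⟨s, hs, h3⟩ := mem_MemN_S0.1 h2 r le_rfl
  exact ⟨s, hs.trans hr, h3⟩

end Inv

end Pool.Agent.U19.UB
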