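import Pool.Agent.Helper669.Forcing

/-!
# The failure of the base property of the continuum, and its forcing translation

Subsets of a set `E` are given by predicates. The first section says by such predicates that a
family of subsets of `E` indexed by `E` is contained in no countably generated `σ`-algebra, and
that `E` has the cardinality of the continuum. The second section is the literal translation to the
forcing language of `Pool.Agent.Helper669.Forcing`: a sentence is the set of the conditions which
force it; quantifiers over subsets of `E` become quantifiers over names `T : E → Set P` for subsets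
of `E`; quantifiers over families of subsets of `E` become quantifiers over names
`S : (E → Set P) → Set P` for such families.
-/

set_option autoImplicit false

namespace Pool.Agent.U19.UB

open Pool.Agent.Helper669.Forcing

section Ambient

variable {E : Type}

/-- The family `S` of subsets of `E` is closed under complements and countable unions. -/
def SigmaClosed (S : (E → Prop) → Prop) : Prop :=
  (∀ T : E → Prop, S T → S (fun x => ¬ T x)) ∧
  (∀ T : ℕ → E → Prop, (∀ n, S (T n)) → S (fun x => ∃ n, T n x))

/-- `T` belongs to the `σ`-algebra generated by the sets `B n`: it belongs to every family which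
contains all `B n` and is closed under complements and countable unions. -/
def InSig (B : ℕ → E → Prop) (T : E → Prop) : Prop :=
  ∀ S : (E → Prop) → Prop, ((∀ n, S (B n)) ∧ SigmaClosed S) → S T

/-- There are subsets `F e` of `E` (`e : E`) such that no sequence `B` of subsets of `E` generates
a `σ`-algebra containing all of them. -/
def NoBase (E : Type) : Prop :=
  ∃ F : E → E → Prop, ∀ B : ℕ → E → Prop, ∃ e, ¬ InSig B (F e)

/-- `E` has the cardinality of the continuum: there are subsets `c e` of `ℕ` (`e : E`) which are
pairwise different, and there are subsets `c e` of `ℕ` (`e : E`) which are all subsets of `ℕ`. -/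
def SizeCont (E : Type) : Prop :=
  (∃ c : E → ℕ → Prop, ∀ e e' : E, e ≠ e' → ∃ n, ¬ (c e n ↔ c e' n)) ∧
  (∃ c : E → ℕ → Prop, ∀ X : ℕ → Prop, ∃ e, ∀ n, X n ↔ c e n)

end Ambient

section Names

variable {P : Type} [Preorder P] {E : Type}

/-- `φ if and only if ψ`. -/
def fiff (φ ψ : Set P) : Set P := fand (fimp φ ψ) (fimp ψ φ)

/-- The names `T`, `T'` name the same subset. -/
def EqN (T T' : E → Set P) : Set P := fall fun x => fiff (meets (T x)) (meets (T' x))

/-- The subset of `E` named by `T` belongs to the family of subsets named by `S`. -/
def MemN (T : E → Set P) (S : (E → Set P) → Set P) : Set P :=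
  fex fun T' : E → Set P => fand (meets (S T')) (EqN T T')

/-- The name of the complement of the set named by `T`. -/
def complN (T : E → Set P) : E → Set P := fun x => fnot (meets (T x))

/-- The name of the union of the sets named by `T n`. -/
def unionN (T : ℕ → E → Set P) : E → Set P := fun x => ⋃ n, T n x

/-- Forcing version of `SigmaClosed`. -/
def SigmaClosedN (S : (E → Set P) → Set P) : Set P :=
  fand (fall fun T : E → Set P => fimp (MemN T S) (MemN (complN T) S))
    (fall fun T : ℕ → E → Set P => fimp (fall fun n => MemN (T n) S) (MemN (unionN T) S))

/-- Forcing version of `InSig`. -/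
def InSigN (B : ℕ → E → Set P) (T : E → Set P) : Set P :=
  fall fun S : (E → Set P) → Set P =>
    fimp (fand (fall fun n => MemN (B n) S) (SigmaClosedN S)) (MemN T S)

/-- Forcing version of `NoBase`. -/
def NoBaseN (P : Type) [Preorder P] (E : Type) : Set P :=
  fex fun F : E → E → Set P => fall fun B : ℕ → E → Set P => fex fun e : E => fnot (InSigN B (F e))

/-- Forcing version of `SizeCont`. -/
def SizeContN (P : Type) [Preorder P] (E : Type) : Set P :=
  fand
    (fex fun c : E → ℕ → Set P => fall fun e : E => fall fun e' : E => fall fun _ : e ≠ e' =>
      fex fun n : ℕ => fnot (fiff (meets (c e n)) (meets (c e' n))))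
    (fex fun c : E → ℕ → Set P => fall fun X : ℕ → Set P => fex fun e : E =>
      fall fun n : ℕ => fiff (meets (X n)) (meets (c e n)))

end Names

end Pool.Agent.U19.UB
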